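import Pool.Agent.Lib.MP_75b31c_lc.D40.H90.Tools

set_option autoImplicit false

/-!
# CLLI1: lifting for I, if the play stays in `C`
-/

namespace Pool.Agent.Lib.MP_75b31c_lc.D40.H90

open Pool.Agent.Lib.MP_75b31c_lc.D40

/-- The positions which avoid the forcing set are a quasi-strategy of II. -/
theorem qii_avoid {T : GT} {K : ℕ} {C A : Set T.Q} {x y : T.Q} (hA : QI T A x)
    (hlx : T.len x = K + 1) (hly : T.len y = K + 2) (hy : y ∈ A)
    (hF : ¬ Force T false A (TX T C)ᶜ y) :
    QII T C A (avoid T (K + 2) false A A (TX T C)ᶜ y) y := by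
  have hitmono : ∀ q n, Hit T (K + 2) false A (TX T C)ᶜ (T.res n q) →
      Hit T (K + 2) false A (TX T C)ᶜ q := by
    rintro q n ⟨m, h1, h2, h3⟩
    rw [T.len_res] at h2
    rw [T.res_res, min_eq_left (by omega)] at h3
    exact ⟨m, h1, by omega, h3⟩
  have hitself : ∀ q, K + 2 ≤ T.len q → Force T false A (TX T C)ᶜ q →
      Hit T (K + 2) false A (TX T C)ᶜ q := by
    intro q h1 h2
    exact ⟨T.len q, h1, le_rfl, by rwa [T.res_self _ _ le_rfl]⟩
  have hitchild : ∀ q q', Child T q q' → Hit T (K + 2) false A (TX T C)ᶜ q' →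
      ¬ Hit T (K + 2) false A (TX T C)ᶜ q → Force T false A (TX T C)ᶜ q' := by
    rintro q q' hc ⟨m, h1, h2, h3⟩ h4
    rcases Nat.lt_or_ge (T.len q) m with h5 | h5
    · have h6 : m = T.len q' := by
        have := hc.1
        omega
      rw [h6, T.res_self _ _ le_rfl] at h3
      exact h3
    · exfalso
      apply h4
      refine ⟨m, h1, h5, ?_⟩
      rw [← hc.2, T.res_res, min_eq_left h5]
      exact h3
  constructor
  · refine ⟨hy, hly.ge, T.res_self _ _ hly.le, ?_⟩
    rintro ⟨m, h1, h2, h3⟩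
    rw [T.res_self _ _ (by omega)] at h3
    exact hF h3
  · rintro q ⟨h1, h2, h3, h4⟩
    refine ⟨h1, ?_⟩
    by_contra h5
    exact h4 (hitself q h2 (Force.base q h5))
  · rintro q ⟨h1, h2, h3, h4⟩
    rw [hly]
    exact ⟨h2, h3⟩
  · rintro q ⟨h1, h2, h3, h4⟩ n hn
    rw [hly] at hn
    refine ⟨hA.res q h1 n (by omega), ?_, ?_, fun h5 => h4 (hitmono q n h5)⟩
    · rw [T.len_res]
      omega
    · rw [T.res_res, min_eq_left hn]
      exact h3
  · rintro q ⟨h1, h2, h3, h4⟩ he q' hc hq'
    refine ⟨hq', ?_, ?_, fun h5 => ?_⟩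
    · have := hc.1
      omega
    · rw [← h3, ← hc.2, T.res_res, min_eq_left h2]
    · apply h4
      apply hitself q h2
      exact Force.mine q q' (by simpa [Turn] using he) hc hq' (hitchild q q' hc h5 h4)
  · rintro q ⟨h1, h2, h3, h4⟩ ho
    by_contra hno
    push Not at hno
    apply h4
    apply hitself q h2
    refine Force.yours q (by simp only [Turn, Bool.toNat_false]; omega) fun q' hc => ?_
    have hq' : q' ∈ A := hA.odd q h1 ho q' hc
    by_contra hf
    apply hno q' hc
    refine ⟨hq', ?_, ?_, fun h5 => hf (hitchild q q' hc h5 h4)⟩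
    · have := hc.1
      omega
    · rw [← h3, ← hc.2, T.res_res, min_eq_left h2]

theorem rho_spec (hR : REACH_S) {T : GT} {j : Bool} {A G : Set T.Q} {q : T.Q}
    (h : Force T j A G q) : Reaches T j A G q (rho T j A G q) := by
  have h' := hR T j A G q h
  unfold rho
  rw [dif_pos h']
  exact Classical.choose_spec h'

theorem clli1 : CLLI1_S := by
  classical
  intro hR T k C σ hσ x hx hc hX
  -- the move of `σ` at `x (2 * k)`
  have hv0 : Valid T (2 * k) C ⟨x (2 * k), ∅, Opt.none⟩ := by
    constructor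
    · intro _
      rfl
    · intro _
      rfl
    · intro h
      simp only at h
      rw [(hx _).1] at h
      omega
    · intro h
      simp only at h
      rw [(hx _).1] at h
      omega
  obtain ⟨g1, g2, g3, -, -⟩ := mv_spec hσ hv0
  set a := mv T k C σ ⟨x (2 * k), ∅, Opt.none⟩ with ha
  simp only at g2 g3
  rw [(hx _).1] at g2 g3
  have haq : a.q = x (2 * k + 1) := by
    have := hc (2 * k) (by simp [Turn])
    rw [this]
    unfold phiI
    rw [if_pos (by rw [(hx _).1])]
  have hqi : QI T a.A (x (2 * k + 1)) := by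
    have := g1.qi (by omega)
    rw [T.res_self _ _ (by omega), haq] at this
    exact this
  set G := (TX T C)ᶜ with hG
  set y := x (2 * k + 2) with hy
  have hyA : y ∈ a.A := hqi.odd _ hqi.mem (by rw [(hx _).1]; omega) _ (branch_child hx _)
  have hphi : ∀ n, 2 * k + 2 ≤ n → n % 2 = 0 → phiI T k C σ (x n) =
      if Hit T (2 * k + 2) false a.A G (x n) then
        rho T false a.A G (hitPt T (2 * k + 2) false a.A G (x n)) (x n)
      else (mv T k C σ ⟨x n, a.A, Opt.s (avoid T (2 * k + 2) false a.A a.A G y)⟩).q := by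
    intro n hn he
    unfold phiI
    rw [if_neg (by rw [(hx _).1]; omega)]
    simp only
    rw [branch_res hx (show 2 * k ≤ n by omega), ← ha, branch_res hx (show 2 * k + 1 ≤ n by omega),
      branch_res hx hn, (hx n).1]
    rw [if_neg (by rw [not_not]; exact ⟨haq.symm, he⟩), if_neg (by rw [not_not]; exact hX n)]
  -- no position of the play is in the forcing set
  have hnF : ∀ n, 2 * k + 2 ≤ n → ¬ Force T false a.A G (x n) := by
    intro n hn hf
    have hex : ∃ n, 2 * k + 2 ≤ n ∧ Force T false a.A G (x n) := ⟨n, hn, hf⟩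
    set n₀ := Nat.find hex with hn₀
    obtain ⟨h1, h2⟩ : 2 * k + 2 ≤ n₀ ∧ Force T false a.A G (x n₀) := Nat.find_spec hex
    have hmin : ∀ m, m < n₀ → ¬ (2 * k + 2 ≤ m ∧ Force T false a.A G (x m)) :=
      fun m hm => Nat.find_min hex hm
    obtain ⟨-, h4⟩ := rho_spec hR h2
    obtain ⟨m, h5, h6, -⟩ := h4 x hx (by rw [(hx _).1]) (fun m hm ht _ => by
      rw [(hx _).1] at hm
      rw [hc m ht, hphi m (by omega) (by simpa [Turn] using ht)]
      have hset : {i | 2 * k + 2 ≤ i ∧ i ≤ T.len (x m) ∧ Force T false a.A G (T.res i (x m))} =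
          {i | 2 * k + 2 ≤ i ∧ i ≤ m ∧ Force T false a.A G (x i)} := by
        ext i
        simp only [Set.mem_ofPred_eq]
        rw [(hx _).1]
        constructor
        · rintro ⟨e1, e2, e3⟩
          exact ⟨e1, e2, by rwa [branch_res hx e2] at e3⟩
        · rintro ⟨e1, e2, e3⟩
          exact ⟨e1, e2, by rwa [branch_res hx e2]⟩
      have hinf : sInf {i | 2 * k + 2 ≤ i ∧ i ≤ T.len (x m) ∧
          Force T false a.A G (T.res i (x m))} = n₀ := by
        rw [hset]
        apply le_antisymm
        · exact Nat.sInf_le ⟨h1, hm, h2⟩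
        · have hne : {i | 2 * k + 2 ≤ i ∧ i ≤ m ∧ Force T false a.A G (x i)}.Nonempty :=
            ⟨n₀, h1, hm, h2⟩
          have hm' := Nat.sInf_mem hne
          by_contra hlt
          exact hmin _ (not_le.1 hlt) ⟨hm'.1, hm'.2.2⟩
      rw [if_pos ⟨n₀, h1, by rw [(hx _).1]; exact hm, by rw [branch_res hx hm]; exact h2⟩]
      unfold hitPt
      rw [hinf, branch_res hx hm])
    exact h6 (hX m)
  have hnH : ∀ n, ¬ Hit T (2 * k + 2) false a.A G (x n) := by
    rintro n ⟨m, h1, h2, h3⟩
    rw [(hx _).1] at h2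
    rw [branch_res hx h2] at h3
    exact hnF m h1 h3
  set B := avoid T (2 * k + 2) false a.A a.A G y with hB
  have hQII : QII T C a.A B y :=
    qii_avoid (K := 2 * k) hqi (hx _).1 (hx _).1 hyA (hnF _ le_rfl)
  have hmemB : ∀ n, 2 * k + 2 ≤ n → x n ∈ a.A → x n ∈ B := by
    intro n hn h
    refine ⟨h, by rw [(hx _).1]; exact hn, by rw [branch_res hx hn], hnH n⟩
  have hvalid : ∀ n, 2 * k + 2 ≤ n → x n ∈ a.A → Valid T (2 * k) C ⟨x n, a.A, Opt.s B⟩ := by
    intro n hn h
    constructor
    · intro h1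
      simp only at h1
      rw [(hx _).1] at h1
      omega
    · intro h1
      simp only at h1
      rw [(hx _).1] at h1
      omega
    · intro _
      simp only
      rw [branch_res hx (by omega)]
      exact hqi
    · intro _
      simp only
      rw [branch_res hx hn]
      exact Or.inr ⟨B, rfl, hQII, hmemB n hn h⟩
  have hA : ∀ n, 2 * k + 2 ≤ n → x n ∈ a.A := by
    intro n hn
    induction n, hn using Nat.le_induction with
    | base => exact hyA
    | succ n hn ih =>
      rcases Nat.mod_two_eq_zero_or_one n with he | ho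
      · obtain ⟨f1, f2, f3, f4, f5⟩ := mv_spec hσ (hvalid n hn ih)
        simp only at f2 f3 f4 f5
        rw [(hx _).1] at f2 f3 f4 f5
        have hq : x (n + 1) = (mv T k C σ ⟨x n, a.A, Opt.s B⟩).q := by
          rw [hc n (by simpa [Turn] using he), hphi n hn he, if_neg (hnH n)]
        have := f1.opt (by omega)
        rw [f5 hn, f4 (by omega)] at this
        rcases this with ⟨p, h1, -⟩ | ⟨B', h1, h2, h3⟩
        · cases h1
        · rw [hq]
          exact (h2.sub _ h3).1
      · exact hqi.odd _ ih (by rw [(hx _).1]; exact ho) _ (branch_child hx _)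
  refine lift_const hσ hx false a.A (Opt.s B) hqi
    (fun n hn => Or.inr ⟨B, rfl, hQII, hmemB n hn (hA n hn)⟩) ?_ ?_ ?_
  · intro n hn
    have he : n % 2 = 0 := by simpa [Turn] using hn
    rcases Nat.lt_or_ge n (2 * k + 2) with h | h
    · have h' : n ≤ 2 * k := by omega
      have e : pos T k a.A (Opt.s B) x n = ⟨x n, ∅, Opt.none⟩ := by
        unfold pos
        rw [if_pos h', if_pos (by omega)]
      rw [hc n hn, e]
      unfold phiI
      rw [if_pos (by rw [(hx _).1]; exact h')]
    · have e : pos T k a.A (Opt.s B) x n = ⟨x n, a.A, Opt.s B⟩ := by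
        unfold pos
        rw [if_neg (by omega), if_neg (by omega)]
      rw [hc n hn, e, hphi n h he, if_neg (hnH n)]
  · intro _
    rw [← ha]
  · intro h
    exact absurd (show (2 * k + 1) % 2 = 0 from h) (by omega)

end Pool.Agent.Lib.MP_75b31c_lc.D40.H90
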