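import Pool.Agent.Lib.MP_75b31c_lc.D40.H90.Tools

set_option autoImplicit false

/-!
# CLLII1: lifting for II, if the play meets `U`
-/

namespace Pool.Agent.Lib.MP_75b31c_lc.D40.H90

open Pool.Agent.Lib.MP_75b31c_lc.D40

theorem wit_spec {T : GT} {k : ℕ} {C : Set T.Q} {σ : (clT T k C).Q → (clT T k C).Q} {x p : T.Q}
    (h : p ∈ US T k C σ x) : UA T k C σ x (wit T k C σ x p) p := by
  have h' : ∃ A, UA T k C σ x A p := h
  unfold wit
  rw [dif_pos h']
  exact Classical.choose_spec h'

theorem cllii1 : CLLII1_S := by
  classical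
  intro _ T k C σ hσ x hx hc hU
  set U := US T k C σ (x (2 * k + 1)) with hUdef
  have hex := hU
  set n₀ := Nat.find hex with hn₀
  have hp : x n₀ ∈ U := Nat.find_spec hex
  have hmin : ∀ m, m < n₀ → x m ∉ U := fun m hm => Nat.find_min hex hm
  set A := wit T k C σ (x (2 * k + 1)) (x n₀) with hA
  obtain ⟨hv, hmo⟩ : UA T k C σ (x (2 * k + 1)) A (x n₀) := wit_spec hp
  obtain ⟨g1, g2, g3, g4, -⟩ := mv_spec hσ hv
  simp only at g2 g3 g4
  rw [(hx _).1] at g2 g3 g4
  have g4' := g4 le_rfl
  have hqi : QI T A (x (2 * k + 1)) := by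
    have := hv.qi (by simp only; rw [(hx _).1])
    simp only at this
    rwa [T.res_self _ _ (hx _).1.le] at this
  -- the option
  have hopt := g1.opt (by omega)
  rw [hmo, g4'] at hopt
  have hopt' : x n₀ ∈ A ∧ x n₀ ∉ TX T C ∧ T.len (x n₀) % 2 = 0 ∧ 2 * k + 2 ≤ T.len (x n₀) ∧
      Compar T (x n₀) (mv T k C σ ⟨x (2 * k + 1), A, Opt.none⟩).q := by
    rcases hopt with ⟨p, h1, h2⟩ | ⟨B, h1, -⟩
    · cases h1
      exact h2
    · cases h1
  obtain ⟨o1, o2, o3, o4, o5⟩ := hopt'
  rw [(hx _).1] at o3 o4
  have hcomp : ∀ n, Compar T (x n₀) (x n) := by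
    intro n
    rcases le_total n n₀ with h | h
    · left
      rw [(hx _).1]
      exact branch_res hx h
    · right
      rw [(hx _).1]
      exact branch_res hx h
  refine lift_const hσ hx true A (Opt.u (x n₀)) hqi (fun n hn => Or.inl ⟨x n₀, rfl, o1, o2, by
    rw [(hx _).1]; exact o3, by rw [(hx _).1]; exact o4, hcomp n⟩) ?_ ?_ ?_
  · intro n hn
    have hn' : n % 2 = 1 := hn
    have hvn : Valid T (2 * k) C (pos T k A (Opt.u (x n₀)) x n) := by
      have hl : T.len (pos T k A (Opt.u (x n₀)) x n).q = n := (hx n).1
      constructor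
      · intro h
        rw [hl] at h
        simp only [pos]
        rw [if_pos h]
      · intro h
        rw [hl] at h
        simp only [pos]
        rw [if_pos h]
      · intro h
        rw [hl] at h
        simp only [pos]
        rw [if_neg (by omega), branch_res hx h]
        exact hqi
      · intro h
        rw [hl] at h
        simp only [pos]
        rw [if_neg (by omega), if_neg (by omega)]
        exact Or.inl ⟨x n₀, rfl, o1, o2, by rw [(hx _).1]; exact o3, by rw [(hx _).1]; exact o4,
          hcomp n⟩
    obtain ⟨q1, q2, q3, q4, q5⟩ := mv_spec hσ hvn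
    have hl : T.len (pos T k A (Opt.u (x n₀)) x n).q = n := (hx n).1
    rw [hl] at q2 q3 q4 q5
    have hcn := hc n hn
    rcases Nat.lt_or_ge n (2 * k + 1) with h | h
    · have h' : n ≤ 2 * k := by omega
      have e : pos T k A (Opt.u (x n₀)) x n = ⟨x n, ∅, Opt.none⟩ := by
        unfold pos
        rw [if_pos h', if_pos (by omega)]
      rw [hcn, e]
      unfold phiII
      rw [if_pos (by rw [(hx _).1]; exact h')]
    · -- the option of the move at `n` is `u (x n₀)`
      have ho : (mv T k C σ (pos T k A (Opt.u (x n₀)) x n)).o = Opt.u (x n₀) := by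
        rcases Nat.eq_or_lt_of_le h with h' | h'
        · subst h'
          have e : pos T k A (Opt.u (x n₀)) x (2 * k + 1) = ⟨x (2 * k + 1), A, Opt.none⟩ := by
            unfold pos
            rw [if_neg (by omega), if_pos (by omega)]
          rw [e]
          exact hmo
        · rw [q5 (by omega)]
          unfold pos
          simp only
          rw [if_neg (by omega)]
      rcases Nat.lt_or_ge n n₀ with h5 | h5
      · have := q1.opt (by omega)
        rw [ho] at this
        rcases this with ⟨p, h1, h2⟩ | ⟨B, h1, -⟩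
        · cases h1
          have h6 := h2.2.2.2.2
          unfold Compar at h6
          rw [q2, (hx _).1] at h6
          rcases h6 with h6 | h6
          · rw [← h6]
            exact branch_res hx (by omega)
          · have h7 := congrArg T.len h6
            rw [T.len_res, q2, (hx _).1] at h7
            have h8 : n₀ = n + 1 := by omega
            rw [T.res_self _ _ (by omega)] at h6
            rw [h6, h8]
        · cases h1
      · have e : pos T k A (Opt.u (x n₀)) x n = ⟨x n, A, Opt.u (x n₀)⟩ := by
          unfold pos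
          rw [if_neg (by omega), if_neg (by omega)]
        rw [hcn, e]
        unfold phiII
        have hr : T.res (2 * k + 1) (x n) = x (2 * k + 1) := branch_res hx h
        rw [if_neg (by rw [(hx _).1]; omega)]
        simp only
        rw [hr, ← hUdef]
        have hset : {m | m ≤ T.len (x n) ∧ T.res m (x n) ∈ U} = {m | m ≤ n ∧ x m ∈ U} := by
          ext m
          simp only [Set.mem_ofPred_eq]
          rw [(hx _).1]
          constructor
          · rintro ⟨h1, h2⟩
            exact ⟨h1, by rwa [branch_res hx h1] at h2⟩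
          · rintro ⟨h1, h2⟩
            exact ⟨h1, by rwa [branch_res hx h1]⟩
        have hinf : sInf {m | m ≤ T.len (x n) ∧ T.res m (x n) ∈ U} = n₀ := by
          rw [hset]
          apply le_antisymm
          · exact Nat.sInf_le ⟨h5, hp⟩
          · have hne : {m | m ≤ n ∧ x m ∈ U}.Nonempty := ⟨n₀, h5, hp⟩
            have hm := Nat.sInf_mem hne
            by_contra hlt
            exact hmin _ (not_le.1 hlt) hm.2
        rw [if_pos ⟨n₀, by rw [(hx _).1]; exact h5, by rw [branch_res hx h5]; exact hp⟩]
        rw [hinf, branch_res hx h5]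
  · intro h
    exact absurd (show (2 * k) % 2 = 1 from h) (by omega)
  · intro _
    exact hmo

end Pool.Agent.Lib.MP_75b31c_lc.D40.H90
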