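import Pool.Agent.Lib.MP_75b31c_lc.D40.Iface

set_option autoImplicit false

/-!
# A common lifting lemma: branches of `clT` with constant second and third component
-/

namespace Pool.Agent.Lib.MP_75b31c_lc.D40.H90

open Pool.Agent.Lib.MP_75b31c_lc.D40

open Classical in
/-- The position `(x n, A, o)` cut at the right lengths. -/
noncomputable def pos (T : GT) (k : ℕ) (A : Set T.Q) (o : Opt T.Q) (x : ℕ → T.Q) (n : ℕ) : Pos T where
  q := x n
  A := if n ≤ 2 * k then ∅ else A
  o := if n ≤ 2 * k + 1 then Opt.none else o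

theorem branch_res {T : GT} {x : ℕ → T.Q} (hx : Branch T x) {m n : ℕ} (h : m ≤ n) :
    T.res m (x n) = x m := by
  induction n, h using Nat.le_induction with
  | base => exact T.res_self _ _ (hx m).1.le
  | succ n hmn ih =>
    rw [← ih, ← (hx n).2, T.res_res, min_eq_left hmn]

theorem branch_child {T : GT} {x : ℕ → T.Q} (hx : Branch T x) (n : ℕ) :
    Child T (x n) (x (n + 1)) := by
  refine ⟨by rw [(hx _).1, (hx _).1], ?_⟩
  rw [(hx n).1]
  exact (hx n).2

theorem mv_valid {T : GT} {k : ℕ} {C : Set T.Q} (σ : (clT T k C).Q → (clT T k C).Q) {s : Pos T}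
    (h : Valid T (2 * k) C s) : mv T k C σ s = (σ ⟨s, h⟩).1 := by
  unfold mv
  rw [dif_pos h]

/-- The move of a strategy at a valid position. -/
theorem mv_spec {T : GT} {k : ℕ} {C : Set T.Q} {σ : (clT T k C).Q → (clT T k C).Q}
    (hσ : IsStrat (clT T k C) σ) {s : Pos T} (h : Valid T (2 * k) C s) :
    Valid T (2 * k) C (mv T k C σ s) ∧ T.len (mv T k C σ s).q = T.len s.q + 1 ∧
      T.res (T.len s.q) (mv T k C σ s).q = s.q ∧
      (2 * k + 1 ≤ T.len s.q → (mv T k C σ s).A = s.A) ∧
      (2 * k + 2 ≤ T.len s.q → (mv T k C σ s).o = s.o) := by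
  rw [mv_valid σ h]
  obtain ⟨h1, h2⟩ := hσ ⟨s, h⟩
  have h2' : cut T (2 * k) (T.len s.q) (σ ⟨s, h⟩).1 = s := congrArg Subtype.val h2
  have h1' : T.len (σ ⟨s, h⟩).1.q = T.len s.q + 1 := h1
  refine ⟨(σ ⟨s, h⟩).2, h1, congrArg Pos.q h2', fun h3 => ?_, fun h3 => ?_⟩
  · have := congrArg Pos.A h2'
    simp only [cut] at this
    rwa [if_neg (by omega)] at this
  · have := congrArg Pos.o h2'
    simp only [cut] at this
    rwa [if_neg (by omega)] at this

/-- Lifting with constant `A` and `o`. -/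
theorem lift_const {T : GT} {k : ℕ} {C : Set T.Q} {σ : (clT T k C).Q → (clT T k C).Q}
    (hσ : IsStrat (clT T k C) σ) {x : ℕ → T.Q} (hx : Branch T x) (j : Bool) (A : Set T.Q)
    (o : Opt T.Q)
    (hqi : QI T A (x (2 * k + 1)))
    (hopt : ∀ n, 2 * k + 2 ≤ n →
      (∃ p, o = Opt.u p ∧ p ∈ A ∧ p ∉ TX T C ∧ T.len p % 2 = 0 ∧ 2 * k + 2 ≤ T.len p ∧
        Compar T p (x n)) ∨
      (∃ B, o = Opt.s B ∧ QII T C A B (x (2 * k + 2)) ∧ x n ∈ B))
    (h1 : ∀ n, Turn j n → (mv T k C σ (pos T k A o x n)).q = x (n + 1))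
    (h2 : Turn j (2 * k) → (mv T k C σ ⟨x (2 * k), ∅, Opt.none⟩).A = A)
    (h3 : Turn j (2 * k + 1) → (mv T k C σ ⟨x (2 * k + 1), A, Opt.none⟩).o = o) :
    ∃ y, Branch (clT T k C) y ∧ Cons (clT T k C) j σ y ∧ ∀ n, (clP T k C).f (y n) = x n := by
  have hv : ∀ n, Valid T (2 * k) C (pos T k A o x n) := by
    intro n
    have hl : T.len (pos T k A o x n).q = n := (hx n).1
    constructor
    · intro h
      rw [hl] at h
      simp only [pos]
      rw [if_pos h]
    · intro h
      rw [hl] at h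
      simp only [pos]
      rw [if_pos h]
    · intro h
      rw [hl] at h
      simp only [pos]
      rw [if_neg (by omega), branch_res hx h]
      exact hqi
    · intro h
      rw [hl] at h
      simp only [pos]
      rw [if_neg (by omega), if_neg (by omega), branch_res hx h]
      exact hopt n h
  have hc : ∀ n, cut T (2 * k) n (pos T k A o x (n + 1)) = pos T k A o x n := by
    intro n
    have hl : T.len (pos T k A o x (n + 1)).q = n + 1 := (hx _).1
    unfold cut
    ext1
    · exact (hx n).2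
    · simp only [pos]
      rw [(hx (n + 1)).1]
      by_cases h : n ≤ 2 * k
      · rw [if_pos (by omega), if_pos h]
      · rw [if_neg (by omega), if_neg h, if_neg (by omega)]
    · simp only [pos]
      rw [(hx (n + 1)).1]
      by_cases h : n ≤ 2 * k + 1
      · rw [if_pos (by omega), if_pos h]
      · rw [if_neg (by omega), if_neg h, if_neg (by omega)]
  refine ⟨fun n => ⟨pos T k A o x n, hv n⟩, fun n => ⟨(hx n).1, Subtype.ext (hc n)⟩, fun n hn => ?_,
    fun n => rfl⟩
  apply Subtype.ext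
  simp only
  rw [← mv_valid σ (hv n)]
  obtain ⟨g1, g2, g3, g4, g5⟩ := mv_spec hσ (hv n)
  have hl : T.len (pos T k A o x n).q = n := (hx n).1
  rw [hl] at g2 g3 g4 g5
  ext1
  · exact (h1 n hn).symm
  · rcases Nat.lt_trichotomy n (2 * k) with h | h | h
    · rw [g1.low (by omega)]
      simp only [pos]
      rw [if_pos (by omega)]
    · subst h
      have e : pos T k A o x (2 * k) = ⟨x (2 * k), ∅, Opt.none⟩ := by
        simp [pos]
      rw [e, h2 hn]
      simp [pos]
    · rw [g4 (by omega)]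
      simp only [pos]
      rw [if_neg (by omega), if_neg (by omega)]
  · rcases Nat.lt_trichotomy n (2 * k + 1) with h | h | h
    · rw [g1.low' (by omega)]
      simp only [pos]
      rw [if_pos (by omega)]
    · subst h
      have e : pos T k A o x (2 * k + 1) = ⟨x (2 * k + 1), A, Opt.none⟩ := by
        simp [pos]
      rw [e, h3 hn]
      simp [pos]
    · rw [g5 (by omega)]
      simp only [pos]
      rw [if_neg (by omega), if_neg (by omega)]

end Pool.Agent.Lib.MP_75b31c_lc.D40.H90
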